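import Pool.Agent.H61.CMC.TargetsE1
import Pool.Agent.H61.CM4B.AsmB1

/-!
Row E1_TH3 of the board cm4_modules (`MP_52e316_nt`): theta inversion with a harmonic polynomial.
-/

set_option autoImplicit false

open MeasureTheory Set Filter NumberField NumberField.InfinitePlace NumberField.Units
  NumberField.Units.dirichletUnitTheorem Pool.Agent.H65.CM4 Pool.Agent.H65.CMC Pool.Agent.H25.HK
  Pool.Agent.H61.CM4 Pool.Agent.H61.CMC
open Pool.Agent.H33.CM4B (bd bd_det bd_mulVec bd_transpose_mulVec tsum_param)
open scoped Real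

namespace Pool.Agent.H1.CMC1

open scoped Classical in
/-- sums over a subset parametrised by a bijection -/
lemma TH3_param {ι V : Type} (S : Set V) (g : ι → V) (hg : ∀ m, g m ∈ S)
    (hinj : Function.Injective g) (hsurj : ∀ u ∈ S, ∃ m, g m = u) (f : V → ℂ) :
    ∑' u : V, (if u ∈ S then f u else 0) = ∑' m, f (g m) := by
  have e : (fun u : V => if u ∈ S then f u else 0) = S.indicator f := by
    funext u
    simp [Set.indicator]
  let E : ι ≃ S := Equiv.ofBijective (fun m => ⟨g m, hg m⟩)
    ⟨fun a b h => hinj (congrArg Subtype.val h), fun u => by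
      obtain ⟨m, hm⟩ := hsurj u.1 u.2
      exact ⟨m, Subtype.ext hm⟩⟩
  rw [e, ← tsum_subtype S f]
  exact (E.tsum_eq (fun u : S => f u)).symm

lemma TH3_pow {r E W e : ℂ} (a : ℕ) (he : e ^ 2 = 1) (h : r ^ 2 = 2 * E) :
    (e * (r * W)) ^ (2 * a) = 2 ^ a * (E ^ a * W ^ (2 * a)) := by
  rw [mul_pow, mul_pow, pow_mul e, he, one_pow, pow_mul r, h, mul_pow]
  ring

lemma TH3_zc {r e a b : ℝ} (he : e ^ 2 = 1) :
    -Complex.I * (((-(r * b) : ℝ) : ℂ) + Complex.I * ((e * (r * a) : ℝ) : ℂ)) =
      (e : ℂ) * ((r : ℂ) * ((a : ℂ) + Complex.I * ((e * b : ℝ) : ℂ))) := by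
  have h3 : (e : ℂ) ^ 2 = 1 := by exact_mod_cast he
  push_cast
  linear_combination (-((r : ℂ) * a * e)) * Complex.I_sq + (-(Complex.I * (r * b))) * h3

open scoped Classical in
/-- (TH3) the theta inversion. -/
theorem pf_TH3 (hGAS : T_GAS) (hPSM : T_PSM) (hANG : T_ANG) (hPQB : T_PQB) : T_TH3 := by
  have _ := hGAS
  have hLBA := Pool.Agent.H61.CM4B.c_LBA
  have hDUB := Pool.Agent.H61.CM4B.c_DUB
  have hIXD := Pool.Agent.H61.CM4B.c_IXD
  have hTHT := Pool.Agent.H61.CM4B.c_THT
  intro k _ _ _ w M x y c hM hy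
  refine ⟨?_, ?_⟩
  · obtain ⟨C, hC0, hC⟩ := hPQB k (wa w)
    have h1 := (hTHT k M x y (fun v => c v - Real.log 2) hM hy).1
    refine Summable.of_nonneg_of_le (fun u => ?_) (fun u => ?_) (h1.mul_left C)
    · split_ifs
      · exact mul_nonneg (hC x y c u hy).1 (Real.exp_pos _).le
      · exact le_refl _
    · split_ifs
      · obtain ⟨-, -, h2, h3⟩ := hC x y c u hy
        rw [h3]
        refine h2.trans (le_of_eq ?_)
        congr 2
        ring
      · rw [mul_zero]
  · obtain ⟨b, hb, hdet⟩ := hLBA k M hM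
    obtain ⟨htr, hdu⟩ := hDUB k M b hM hb hdet
    obtain ⟨hdk, -, -, -, -, -⟩ := hIXD k
    have hDN : 0 < Dm M := Nat.mul_pos hdk (Nat.pos_of_ne_zero hM)
    set D : ℝ := (Dm M : ℝ) with hD
    have hD0 : 0 < D := by rw [hD]; exact_mod_cast hDN
    have hBdet : (Bm b).det ≠ 0 := by
      intro h
      rw [h, abs_zero] at hdet
      exact hD0.ne hdet
    -- the matrix
    let G : Pl k → Matrix (Fin 2) (Fin 2) ℝ := fun v =>
      !![Real.exp (c v / 2) / √(y v), Real.exp (c v / 2) * (x v / √(y v));
        0, Real.exp (c v / 2) * √(y v)]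
    have hG00 : ∀ v, G v 0 0 = Real.exp (c v / 2) / √(y v) := fun v => rfl
    have hG01 : ∀ v, G v 0 1 = Real.exp (c v / 2) * (x v / √(y v)) := fun v => rfl
    have hG10 : ∀ v, G v 1 0 = 0 := fun v => rfl
    have hG11 : ∀ v, G v 1 1 = Real.exp (c v / 2) * √(y v) := fun v => rfl
    have hsy : ∀ v, 0 < √(y v) := fun v => Real.sqrt_pos.2 (hy v)
    have hsy2 : ∀ v, √(y v) ^ 2 = y v := fun v => Real.sq_sqrt (hy v).le
    have he2 : ∀ t : ℝ, Real.exp (t / 2) ^ 2 = Real.exp t := fun t => by
      rw [← Real.exp_nat_mul]; congr 1; push_cast; ring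
    have hGdet : ∀ v, (G v).det = Real.exp (c v) := fun v => by
      rw [Matrix.det_fin_two, hG00, hG01, hG10, hG11, ← he2 (c v)]
      have := (hsy v).ne'
      field_simp
      ring
    set A : Matrix (Pl k × Fin 2) (Pl k × Fin 2) ℝ := bd G * Bm b with hA
    have hAdet : |A.det| = Real.exp (∑ v, c v) * D := by
      rw [hA, Matrix.det_mul, bd_det, abs_mul, hdet]
      simp only [hGdet]
      rw [← Real.exp_sum, abs_of_pos (Real.exp_pos _)]
    have hA0 : A.det ≠ 0 := by
      intro h
      rw [h, abs_zero] at hAdet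
      exact (mul_pos (Real.exp_pos _) hD0).ne hAdet
    -- the data of the Poisson formula
    set e : Pl k → ℝ := fun v => if 0 ≤ w v then 1 else -1 with he
    have he1 : ∀ v, e v = 1 ∨ e v = -1 := fun v => by
      rw [he]
      by_cases h : 0 ≤ w v
      · exact Or.inl (if_pos h)
      · exact Or.inr (if_neg h)
    have hps := hPSM (Pl k) A e (fun v => 2 * (w v).natAbs) hA0 he1
    set T : ℂ := ∏ v : Pl k, (2 : ℂ) ^ (w v).natAbs with hT
    have hT0 : T ≠ 0 := Finset.prod_ne_zero_iff.mpr fun v _ => pow_ne_zero _ two_ne_zero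
    -- the primal side
    have hcomb : ∀ (m : Pl k × Fin 2 → ℤ) (v : Pl k),
        (Bm b).mulVec (fun i => (m i : ℝ)) (v, 0) = rv v ((∑ i, m i • b i).1 : k) ∧
        (Bm b).mulVec (fun i => (m i : ℝ)) (v, 1) = rv v ((∑ i, m i • b i).2 : k) := by
      intro m v
      have e1 : ((∑ i, m i • b i).1 : 𝓞 k) = ∑ i, m i • (b i).1 := by
        rw [Prod.fst_sum]; rfl
      have e2 : ((∑ i, m i • b i).2 : 𝓞 k) = ∑ i, m i • (b i).2 := by
        rw [Prod.snd_sum]; rfl
      have e3 : ∀ z : Pl k × Fin 2 → 𝓞 k, rv v ((∑ i, m i • z i : 𝓞 k) : k) =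
          ∑ i, (m i : ℝ) * rv v (z i : k) := by
        intro z
        have e4 : ((∑ i, m i • z i : 𝓞 k) : k) = ∑ i, (m i : k) * (z i : k) := by
          change algebraMap (𝓞 k) k (∑ i, m i • z i) = _
          rw [map_sum]
          refine Finset.sum_congr rfl fun i _ => ?_
          rw [zsmul_eq_mul, map_mul, map_intCast]
        rw [e4, map_sum]
        refine Finset.sum_congr rfl fun i _ => ?_
        rw [map_mul, map_intCast]
      rw [e1, e2, e3, e3]
      constructor
      · simp only [Matrix.mulVec, dotProduct]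
        refine Finset.sum_congr rfl fun i _ => ?_
        have : Bm b (v, 0) i = rv v ((b i).1 : k) := if_pos rfl
        rw [this, mul_comm]
      · simp only [Matrix.mulVec, dotProduct]
        refine Finset.sum_congr rfl fun i _ => ?_
        have : Bm b (v, 1) i = rv v ((b i).2 : k) := if_neg (by norm_num)
        rw [this, mul_comm]
    have hprim : ∀ m : Pl k × Fin 2 → ℤ,
        Real.exp (-π * ∑ i, (A.mulVec (fun i => (m i : ℝ)) i) ^ 2) =
          Real.exp (-(2 * π) * qs x y c (∑ i, m i • b i)) := by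
      intro m
      have e1 : ∑ i, (A.mulVec (fun i => (m i : ℝ)) i) ^ 2 = 2 * qs x y c (∑ i, m i • b i) := by
        rw [Fintype.sum_prod_type, qs, Finset.mul_sum]
        refine Finset.sum_congr rfl fun v _ => ?_
        rw [Fin.sum_univ_two, hA, ← Matrix.mulVec_mulVec, bd_mulVec, bd_mulVec, (hcomb m v).1,
          (hcomb m v).2, hG00, hG01, hG10, hG11, qr, ← he2 (c v)]
        have h1 := (hsy v).ne'
        have h2 := hsy2 v
        have h3 := (hy v).ne'
        set a := rv v ((∑ i, m i • b i).1 : k)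
        set a' := rv v ((∑ i, m i • b i).2 : k)
        set w := √(y v)
        clear_value w
        rw [← h2]
        field_simp
        ring
      rw [e1]
      congr 1
      ring
    have hprimz : ∀ m : Pl k × Fin 2 → ℤ, ∏ v, zc e (mv A m) v ^ (2 * (w v).natAbs) =
        T * (am w x y (∑ i, m i • b i) * ((pq (wa w) x y c (∑ i, m i • b i) : ℝ) : ℂ)) := by
      intro m
      rw [(hANG k w x y hy).2.2.2.2 c (∑ i, m i • b i), hT, ← Finset.prod_mul_distrib]
      refine Finset.prod_congr rfl fun v _ => ?_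
      have h0 : mv A m (v, 0) = Real.exp (c v / 2) / √(y v) *
          (rv v ((∑ i, m i • b i).1 : k) + rv v ((∑ i, m i • b i).2 : k) * x v) := by
        show (A.mulVec (fun i => (m i : ℝ))) (v, 0) = _
        rw [hA, ← Matrix.mulVec_mulVec, bd_mulVec, (hcomb m v).1, (hcomb m v).2, hG00, hG01]
        ring
      have h1 : mv A m (v, 1) = Real.exp (c v / 2) / √(y v) *
          (rv v ((∑ i, m i • b i).2 : k) * y v) := by
        show (A.mulVec (fun i => (m i : ℝ))) (v, 1) = _
        rw [hA, ← Matrix.mulVec_mulVec, bd_mulVec, (hcomb m v).1, (hcomb m v).2, hG10, hG11]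
        have h2 := (hsy v).ne'
        have h3 := hsy2 v
        set r := √(y v)
        clear_value r
        rw [← h3]
        field_simp
        ring
      have h2 : zc e (mv A m) v = ((Real.exp (c v / 2) / √(y v) : ℝ) : ℂ) *
          (((rv v ((∑ i, m i • b i).1 : k) + rv v ((∑ i, m i • b i).2 : k) * x v : ℝ) : ℂ) +
            Complex.I * ((e v * (rv v ((∑ i, m i • b i).2 : k) * y v) : ℝ) : ℂ)) := by
        unfold zc
        rw [h0, h1]
        push_cast
        ring
      have h3 : (((Real.exp (c v / 2) / √(y v) : ℝ) : ℂ)) ^ 2 =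
          2 * ((Real.exp (c v) / (2 * y v) : ℝ) : ℂ) := by
        rw [← Complex.ofReal_pow, div_pow, he2, hsy2]
        have h4 : Real.exp (c v) / y v = 2 * (Real.exp (c v) / (2 * y v)) := by
          have := (hy v).ne'
          field_simp
        rw [h4, Complex.ofReal_mul]
        norm_num
      have h5 := TH3_pow (W := (((rv v ((∑ i, m i • b i).1 : k) +
            rv v ((∑ i, m i • b i).2 : k) * x v : ℝ) : ℂ) +
            Complex.I * ((e v * (rv v ((∑ i, m i • b i).2 : k) * y v) : ℝ) : ℂ)))
        (w v).natAbs (one_pow 2) h3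
      rw [one_mul] at h5
      rw [h2]
      exact h5
    -- the dual side
    have hu : ∀ m : Pl k × Fin 2 → ℤ, ∃ u : V2 k, u ∈ du M ∧
        ∀ i, Algebra.trace ℤ (𝓞 k) (det u (b i)) = (Dm M : ℤ) * m i := fun m => (hdu m).exists
    choose g hg1 hg2 using hu
    have hbM : ∀ i, b i ∈ M := by
      intro i
      rw [hb]
      refine ⟨Pi.single i 1, ?_⟩
      rw [Finset.sum_eq_single i]
      · simp
      · intro j _ hj
        simp [Pi.single_eq_of_ne hj]
      · simp
    have hdualz : ∀ m : Pl k × Fin 2 → ℤ,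
        Real.exp (-π * ∑ i, (mv (A⁻¹).transpose m i) ^ 2) =
          Real.exp (-(2 * π) * qs x y (fun v => -c v - 2 * Real.log D) (g m)) ∧
        ∏ v, (-Complex.I * zc e (mv (A⁻¹).transpose m) v) ^ (2 * (w v).natAbs) =
          T * (am w x y (g m) *
            ((pq (wa w) x y (fun v => -c v - 2 * Real.log D) (g m) : ℝ) : ℂ)) := by
      intro m
      let q : Pl k × Fin 2 → ℝ := fun p => if p.2 = 0 then
        -(Real.exp (-(c p.1 / 2)) * √(y p.1) * (rv p.1 ((g m).2 : k) / D)) else
        Real.exp (-(c p.1 / 2)) * (rv p.1 ((g m).1 : k) / D + x p.1 * (rv p.1 ((g m).2 : k) / D)) /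
          √(y p.1)
      have hq0 : ∀ v, q (v, 0) = -(Real.exp (-(c v / 2)) * √(y v) * (rv v ((g m).2 : k) / D)) :=
        fun v => if_pos rfl
      have hq1 : ∀ v, q (v, 1) = Real.exp (-(c v / 2)) * (rv v ((g m).1 : k) / D +
          x v * (rv v ((g m).2 : k) / D)) / √(y v) := fun v => if_neg (by norm_num)
      have hqe : mv (A⁻¹).transpose m = q := by
        show (A⁻¹).transpose.mulVec (fun i => (m i : ℝ)) = q
        have h1 : A.transpose.mulVec q = fun i => (m i : ℝ) := by
          funext i
          rw [hA, Matrix.transpose_mul, ← Matrix.mulVec_mulVec]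
          have h2 : ∀ v, (bd G).transpose.mulVec q (v, 0) = -(rv v ((g m).2 : k) / D) := by
            intro v
            rw [bd_transpose_mulVec, hG00, hG10, hq0, Real.exp_neg]
            have h3 := (hsy v).ne'
            have h4 := (Real.exp_pos (c v / 2)).ne'
            field_simp
            ring
          have h5 : ∀ v, (bd G).transpose.mulVec q (v, 1) = rv v ((g m).1 : k) / D := by
            intro v
            rw [bd_transpose_mulVec, hG01, hG11, hq0, hq1, Real.exp_neg]
            have h3 := (hsy v).ne'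
            have h4 := (Real.exp_pos (c v / 2)).ne'
            field_simp
            ring
          set p := (bd G).transpose.mulVec q
          have h6 : (Bm b).transpose.mulVec p i =
              (∑ v : Pl k, (rv v ((g m).1 : k) * rv v ((b i).2 : k) -
                rv v ((g m).2 : k) * rv v ((b i).1 : k))) / D := by
            simp only [Matrix.mulVec, dotProduct, Fintype.sum_prod_type, Fin.sum_univ_two,
              Matrix.transpose_apply]
            rw [Finset.sum_div]
            refine Finset.sum_congr rfl fun v _ => ?_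
            have h7 : Bm b (v, 0) i = rv v ((b i).1 : k) := if_pos rfl
            have h8 : Bm b (v, 1) i = rv v ((b i).2 : k) := if_neg (by norm_num)
            rw [h7, h8, h2, h5]
            ring
          rw [h6, ← htr, hg2]
          push_cast
          rw [← hD]
          field_simp
        have h9 : IsUnit A.det := hA0.isUnit
        rw [← h1, Matrix.mulVec_mulVec, ← Matrix.transpose_mul, Matrix.mul_nonsing_inv _ h9,
          Matrix.transpose_one, Matrix.one_mulVec]
      rw [hqe]
      refine ⟨?_, ?_⟩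
      · have e1 : ∑ i, q i ^ 2 = 2 * qs x y (fun v => -c v - 2 * Real.log D) (g m) := by
          rw [Fintype.sum_prod_type, qs, Finset.mul_sum]
          refine Finset.sum_congr rfl fun v _ => ?_
          rw [Fin.sum_univ_two, hq0, hq1, qr]
          have e2 : Real.exp (-c v - 2 * Real.log D) = Real.exp (-(c v / 2)) ^ 2 / D ^ 2 := by
            rw [Real.exp_sub, mul_comm (2 : ℝ) (Real.log D), ← Real.rpow_def_of_pos hD0]
            have e3 : Real.exp (-(c v / 2)) ^ 2 = Real.exp (-c v) := by
              rw [← Real.exp_nat_mul]; congr 1; push_cast; ring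
            rw [e3]
            congr 1
            norm_cast
          rw [e2]
          have h1 := (hsy v).ne'
          have h2 := hsy2 v
          have h3 := (hy v).ne'
          set a := rv v ((g m).1 : k)
          set a' := rv v ((g m).2 : k)
          set w := √(y v)
          clear_value w
          rw [← h2]
          field_simp
          ring
        rw [e1]
        congr 1
        ring
      · rw [(hANG k w x y hy).2.2.2.2 (fun v => -c v - 2 * Real.log D) (g m), hT,
          ← Finset.prod_mul_distrib]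
        refine Finset.prod_congr rfl fun v _ => ?_
        have e2 : Real.exp (-c v - 2 * Real.log D) = Real.exp (-(c v / 2)) ^ 2 / D ^ 2 := by
          rw [Real.exp_sub, mul_comm (2 : ℝ) (Real.log D), ← Real.rpow_def_of_pos hD0]
          have e3 : Real.exp (-(c v / 2)) ^ 2 = Real.exp (-c v) := by
            rw [← Real.exp_nat_mul]; congr 1; push_cast; ring
          rw [e3]
          congr 1
          norm_cast
        have he3 : e v ^ 2 = 1 := by
          rcases he1 v with h | h <;> rw [h] <;> norm_num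
        have h0 : q (v, 0) = -(Real.exp (-(c v / 2)) / (D * √(y v)) *
            (rv v ((g m).2 : k) * y v)) := by
          rw [hq0]
          have h2 := (hsy v).ne'
          have h3 := hsy2 v
          set r := √(y v)
          clear_value r
          rw [← h3]
          field_simp
        have h1 : q (v, 1) = Real.exp (-(c v / 2)) / (D * √(y v)) *
            (rv v ((g m).1 : k) + rv v ((g m).2 : k) * x v) := by
          rw [hq1]
          have h2 := (hsy v).ne'
          field_simp
        have h2 : -Complex.I * zc e q v = ((e v : ℝ) : ℂ) *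
            (((Real.exp (-(c v / 2)) / (D * √(y v)) : ℝ) : ℂ) *
            (((rv v ((g m).1 : k) + rv v ((g m).2 : k) * x v : ℝ) : ℂ) +
              Complex.I * ((e v * (rv v ((g m).2 : k) * y v) : ℝ) : ℂ))) := by
          unfold zc
          rw [h0, h1]
          exact TH3_zc he3
        have h3 : (((Real.exp (-(c v / 2)) / (D * √(y v)) : ℝ) : ℂ)) ^ 2 =
            2 * ((Real.exp (-c v - 2 * Real.log D) / (2 * y v) : ℝ) : ℂ) := by
          rw [← Complex.ofReal_pow, div_pow, mul_pow, hsy2, e2]
          have h4 : Real.exp (-(c v / 2)) ^ 2 / (D ^ 2 * y v) =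
              2 * (Real.exp (-(c v / 2)) ^ 2 / D ^ 2 / (2 * y v)) := by
            have := (hy v).ne'
            field_simp
          rw [h4, Complex.ofReal_mul]
          norm_num
        rw [h2]
        exact TH3_pow (w v).natAbs (by exact_mod_cast he3) h3
    -- the parametrisations
    have hinj1 : Function.Injective (fun m : Pl k × Fin 2 → ℤ => ∑ i, m i • b i) := by
      intro m m' hmm
      have hmm' : ∑ i, m i • b i = ∑ i, m' i • b i := hmm
      have h1 : (Bm b).mulVec (fun i => (m i : ℝ)) = (Bm b).mulVec (fun i => (m' i : ℝ)) := by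
        funext p
        obtain ⟨v, j⟩ := p
        fin_cases j
        · change (Bm b).mulVec (fun i => (m i : ℝ)) (v, 0) = (Bm b).mulVec (fun i => (m' i : ℝ)) (v, 0)
          rw [(hcomb m v).1, (hcomb m' v).1, hmm']
        · change (Bm b).mulVec (fun i => (m i : ℝ)) (v, 1) = (Bm b).mulVec (fun i => (m' i : ℝ)) (v, 1)
          rw [(hcomb m v).2, (hcomb m' v).2, hmm']
      have h2 := Matrix.mulVec_injective_of_isUnit
        ((Matrix.isUnit_iff_isUnit_det _).2 hBdet.isUnit) h1
      funext i
      have h3 := congrFun h2 i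
      exact_mod_cast h3
    have hsurj1 : ∀ u ∈ (M : Set (V2 k)), ∃ m : Pl k × Fin 2 → ℤ, ∑ i, m i • b i = u := by
      intro u hu
      exact (hb u).1 hu
    have hinj2 : Function.Injective g := by
      intro m m' hmm
      funext i
      have h1 := hg2 m i
      have h2 := hg2 m' i
      rw [hmm, h2] at h1
      have h3 : (Dm M : ℤ) ≠ 0 := by exact_mod_cast hDN.ne'
      exact (mul_left_cancel₀ h3 h1).symm
    have hsurj2 : ∀ u ∈ (du M : Set (V2 k)), ∃ m, g m = u := by
      intro u hu
      have h1 : ∀ i, ∃ n : ℤ, Algebra.trace ℤ (𝓞 k) (det u (b i)) = (Dm M : ℤ) * n := by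
        intro i
        obtain ⟨n, hn⟩ := hu (b i) (hbM i)
        exact ⟨n, hn⟩
      choose n hn using h1
      exact ⟨n, (hdu n).unique ⟨hg1 n, hg2 n⟩ ⟨hu, hn⟩⟩
    have hP := TH3_param (M : Set (V2 k)) (fun m : Pl k × Fin 2 → ℤ => ∑ i, m i • b i)
      (fun m => (hb _).2 ⟨m, rfl⟩) hinj1 hsurj1 (fun u => am w x y u *
        ((pq (wa w) x y c u * Real.exp (-(2 * π) * qs x y c u) : ℝ) : ℂ))
    have hQ := TH3_param (du M : Set (V2 k)) g hg1 hinj2 hsurj2
      (fun u => am w x y u * ((pq (wa w) x y (fun v => -c v - 2 * Real.log D) u *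
        Real.exp (-(2 * π) * qs x y (fun v => -c v - 2 * Real.log D) u) : ℝ) : ℂ))
    have e1 : th3 w M x y c = ∑' m : Pl k × Fin 2 → ℤ, am w x y (∑ i, m i • b i) *
        ((pq (wa w) x y c (∑ i, m i • b i) *
          Real.exp (-(2 * π) * qs x y c (∑ i, m i • b i)) : ℝ) : ℂ) := hP
    have e2 : th3 w (du M) x y (fun v => -c v - 2 * Real.log D) =
        ∑' m : Pl k × Fin 2 → ℤ, am w x y (g m) *
        ((pq (wa w) x y (fun v => -c v - 2 * Real.log D) (g m) *
          Real.exp (-(2 * π) * qs x y (fun v => -c v - 2 * Real.log D) (g m)) : ℝ) : ℂ) := hQ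
    have e3 : ∀ m : Pl k × Fin 2 → ℤ,
        ((Real.exp (-π * ∑ i, (mv A m i) ^ 2) : ℝ) : ℂ) * ∏ v, zc e (mv A m) v ^ (2 * (w v).natAbs) =
        T * (am w x y (∑ i, m i • b i) * ((pq (wa w) x y c (∑ i, m i • b i) *
          Real.exp (-(2 * π) * qs x y c (∑ i, m i • b i)) : ℝ) : ℂ)) := by
      intro m
      have h1 : Real.exp (-π * ∑ i, (mv A m i) ^ 2) =
        Real.exp (-(2 * π) * qs x y c (∑ i, m i • b i)) := hprim m
      rw [hprimz m, h1]
      push_cast
      ring
    have e4 : ∀ m : Pl k × Fin 2 → ℤ,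
        ((Real.exp (-π * ∑ i, (mv (A⁻¹).transpose m i) ^ 2) : ℝ) : ℂ) *
          ∏ v, (-Complex.I * zc e (mv (A⁻¹).transpose m) v) ^ (2 * (w v).natAbs) =
        T * (am w x y (g m) * ((pq (wa w) x y (fun v => -c v - 2 * Real.log D) (g m) *
          Real.exp (-(2 * π) * qs x y (fun v => -c v - 2 * Real.log D) (g m)) : ℝ) : ℂ)) := by
      intro m
      rw [(hdualz m).1, (hdualz m).2]
      push_cast
      ring
    rw [tsum_congr e3, tsum_congr e4, tsum_mul_left, tsum_mul_left, ← e1, ← e2, hAdet] at hps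
    have h5 : (((Real.exp (∑ v, c v) * D)⁻¹ : ℝ) : ℂ) = ((Real.exp (-∑ v, c v) / D : ℝ) : ℂ) := by
      rw [mul_inv, ← Real.exp_neg, div_eq_mul_inv]
    rw [h5] at hps
    apply mul_left_cancel₀ hT0
    rw [hps]
    ring

end Pool.Agent.H1.CMC1
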